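import Mathlib
import Pool.Agent.Results.MP_471f68_co.TwoDConnected
import Pool.Agent.Y332.PM.Examples

set_option autoImplicit false

open Pool.Agent.Results.MP_471f68_co.TwoDConnected Pool.Agent.Helper598.Parallel

namespace Pool.Agent.Results.MP_471f68_co.RankFormula

/-- The normals given by `a` are generic: the numbers `a j k` are algebraically independent
over `ℚ`. -/
def Generic (d : ℕ) {F : Type} (a : F → Fin (d - 1) → ℝ) : Prop :=
  AlgebraicIndependent ℚ (fun q : F × Fin (d - 1) => a q.1 q.2)

/-- The faces incident in `I` with a vertex of `X`. -/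
def faces {V F : Type} [DecidableEq V] [DecidableEq F] (I : Finset (V × F)) (X : Finset V) :
    Finset F :=
  (I.filter (fun e => e.1 ∈ X)).image Prod.snd

/-- Every nonempty proper subset `X` of the vertex set is crossed by at least `k` faces: at least
`k` faces are incident both with a vertex in `X` and with a vertex outside `X`. -/
def Crossed (k : ℕ) {V F : Type} [DecidableEq V] [DecidableEq F] [Fintype V]
    (I : Finset (V × F)) : Prop :=
  ∀ X : Finset V, X.Nonempty → X ≠ Finset.univ → k ≤ (faces I X ∩ faces I Xᶜ).card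

/-- `I` spans: it has the same rank as `V × F` in the generic `d`-parallel matroid. -/
def Spans (d : ℕ) {V F : Type} [DecidableEq V] [DecidableEq F] (I : Finset (V × F)) : Prop :=
  ∀ a : F → Fin (d - 1) → ℝ, Generic d a →
    sceneRank d a (I : Set (V × F)) = sceneRank d a (Set.univ : Set (V × F))

/-- `I` does not span: its rank is smaller than the rank of `V × F`. -/
def Fails (d : ℕ) {V F : Type} [DecidableEq V] [DecidableEq F] (I : Finset (V × F)) : Prop :=
  ∀ a : F → Fin (d - 1) → ℝ, Generic d a →
    sceneRank d a (I : Set (V × F)) < sceneRank d a (Set.univ : Set (V × F))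

/-- Sanity check: the two notions exclude each other. -/
theorem not_spans_of_fails (d : ℕ) {V F : Type} [DecidableEq V] [DecidableEq F] [Fintype F]
    (I : Finset (V × F)) (h : Fails d I) : ¬ Spans d I := by
  intro hs
  obtain ⟨a, ha⟩ := exists_generic d F
  exact (h a ha).ne (hs a ha)

lemma spans_of_bound (n : ℕ) {V F : Type} [DecidableEq V] [DecidableEq F] [Fintype V] [Fintype F]
    [Nonempty V] (I : Finset (V × F)) (a : F → Fin n → ℝ)
    (h : (n + 1) * Fintype.card V + Fintype.card F ≤ sceneRank (n + 1) a (I : Set (V × F)) +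
      (n + 1)) :
    sceneRank (n + 1) a (I : Set (V × F)) = sceneRank (n + 1) a (Set.univ : Set (V × F)) := by
  have hup := upper_bound (κ := Fin n) a (Set.univ : Set (V × F))
  rw [rank_eq, Fintype.card_fin] at hup
  apply le_antisymm
  · apply Submodule.finrank_mono
    exact Submodule.span_mono (Set.image_mono (Set.subset_univ _))
  · omega

/-- **The generic `d`-parallel matroid.** Let `d ≥ 2`.
(1) Rank formula: `rank I` is the minimum over all partitions `P` of `V` of
`∑_{X ∈ P} (d |X| + |faces I X| - d)`.
(2) If every nonempty proper subset of `V` is crossed by at least `2d` faces, then `I \ D` spans for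
every set `D` of at most `d` pairs such that every face still has an incidence in `I \ D`.
(3) If the incidence graph is `2d`-vertex-connected, then `I \ D` spans for all sets `D` of at most
`d` pairs.
(4) This is false for some `2d`-vertex-connected incidence graph and some `D` with `d + 1` pairs.
(5) `2d` cannot be replaced by `2d - 1`: for some incidence structure with `(2d-1)`-vertex-connected
incidence graph `I` does not span. -/
theorem result (d : ℕ) (hd : 2 ≤ d) :
    (∀ (V F : Type) [Fintype V] [Fintype F] [DecidableEq V] [DecidableEq F] (I : Finset (V × F))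
      (a : F → Fin (d - 1) → ℝ), Generic d a →
      (∀ P : Finpartition (Finset.univ : Finset V), sceneRank d a (I : Set (V × F)) +
        d * P.parts.card ≤ d * Fintype.card V + ∑ X ∈ P.parts, (faces I X).card) ∧
      ∃ P : Finpartition (Finset.univ : Finset V), sceneRank d a (I : Set (V × F)) +
        d * P.parts.card = d * Fintype.card V + ∑ X ∈ P.parts, (faces I X).card) ∧
    (∀ (V F : Type) [Fintype V] [Fintype F] [DecidableEq V] [DecidableEq F] (I D : Finset (V × F)),
      Crossed (2 * d) I → D.card ≤ d → (∀ j : F, ∃ v, (v, j) ∈ I \ D) → Spans d (I \ D)) ∧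
    (∀ (V F : Type) [Fintype V] [Fintype F] [DecidableEq V] [DecidableEq F] (I D : Finset (V × F)),
      VertexConnected (2 * d) (incidenceGraph I) → D.card ≤ d → Spans d (I \ D)) ∧
    (∃ (V F : Type) (_ : Fintype V) (_ : Fintype F) (_ : DecidableEq V) (_ : DecidableEq F)
      (I D : Finset (V × F)), VertexConnected (2 * d) (incidenceGraph I) ∧ D.card = d + 1 ∧
      Fails d (I \ D)) ∧
    (∃ (V F : Type) (_ : Fintype V) (_ : Fintype F) (_ : DecidableEq V) (_ : DecidableEq F)
      (I : Finset (V × F)), VertexConnected (2 * d - 1) (incidenceGraph I) ∧ Fails d I) := by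
  obtain ⟨n, rfl⟩ : ∃ n, d = n + 1 := ⟨d - 1, by omega⟩
  have hn : 1 ≤ n := by omega
  refine ⟨?_, ?_, ?_, ?_, ?_⟩
  · intro V F _ _ _ _ I a ha
    have hle : ∀ P : Finpartition (Finset.univ : Finset V), sceneRank (n + 1) a (I : Set (V × F)) +
        (n + 1) * P.parts.card ≤ (n + 1) * Fintype.card V + ∑ X ∈ P.parts, (faces I X).card := by
      intro P
      have h := Pool.Agent.Y332.PM.formula_le (κ := Fin n) a I P
      rw [rank_eq, Fintype.card_fin] at h
      exact h
    refine ⟨hle, ?_⟩
    obtain ⟨P, hP⟩ := Pool.Agent.Y332.PM.formula_ge (κ := Fin n) I a ha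
    rw [rank_eq, Fintype.card_fin] at hP
    exact ⟨P, le_antisymm (hle P) hP⟩
  · intro V F _ _ _ _ I D hX hD hF a ha
    rcases isEmpty_or_nonempty V with hV | hV
    · congr 1
      ext e
      exact hV.elim e.1
    · apply spans_of_bound
      have h := Pool.Agent.Y332.PM.full_rank (κ := Fin n) I D (by rw [Fintype.card_fin]; exact hD)
        (by rw [Fintype.card_fin]; exact hX) hF a ha
      rw [rank_eq, Fintype.card_fin] at h
      exact h
  · intro V F _ _ _ _ I D hI hD a ha
    obtain ⟨hcard, hconn⟩ := hI
    rw [Fintype.card_sum] at hcard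
    have hconn' : ∀ X : Finset (V ⊕ F), X.card < 2 * (Fintype.card (Fin n) + 1) →
        ((IG I).induce ((↑X : Set (V ⊕ F))ᶜ)).Connected := by
      intro X hX
      rw [Fintype.card_fin] at hX
      exact hconn X hX
    have hV : Nonempty V :=
      conn_nonempty_V I (by omega) (hconn' ∅ (by simp))
    apply spans_of_bound
    have h := Pool.Agent.Y332.PM.full_rank_conn (κ := Fin n) I D
      (by rw [Fintype.card_fin]; exact hD) (by rw [Fintype.card_fin]; exact hcard) hconn' a ha
    rw [rank_eq, Fintype.card_fin] at h
    exact h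
  · refine ⟨Fin (2 * (n + 1)), Fin (2 * (n + 1)), inferInstance, inferInstance, inferInstance,
      inferInstance, Finset.univ, Pool.Agent.Y332.PM.del n, ⟨?_, ?_⟩,
      Pool.Agent.Y332.PM.card_del n hn, ?_⟩
    · rw [Fintype.card_sum, Fintype.card_fin]
      omega
    · intro X hX
      exact Pool.Agent.Y332.PM.complete_conn n X hX
    · intro a ha
      have h1 := Pool.Agent.Y332.PM.del_rank n hn a
      have hne : Nonempty (Fin (2 * (n + 1))) := ⟨⟨0, by omega⟩⟩
      have h2 := Pool.Agent.Y332.PM.univ_rank (V := Fin (2 * (n + 1))) (κ := Fin n)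
        (by rw [Fintype.card_fin, Fintype.card_fin]) a ha
      rw [rank_eq] at h1 h2
      rw [Fintype.card_fin, Fintype.card_fin] at h2
      omega
  · refine ⟨(Fin (2 * n + 1) ⊕ Fin (2 * n + 1)) × Fin (2 * n + 1),
      Fin (2 * n + 1) × Fin (2 * n + 1), inferInstance, inferInstance, inferInstance,
      inferInstance, Pool.Agent.Y332.PM.blow (2 * n + 1), ⟨?_, ?_⟩, ?_⟩
    · rw [Fintype.card_sum, Fintype.card_prod, Fintype.card_sum, Fintype.card_prod,
        Fintype.card_fin]
      have h : 2 * (n + 1) - 1 = 2 * n + 1 := by omega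
      rw [h]
      nlinarith
    · intro X hX
      exact Pool.Agent.Y332.PM.blow_conn (2 * n + 1) X (by omega)
    · intro a ha
      have h1 := Pool.Agent.Y332.PM.blow_rank (κ := Fin n) (2 * n + 1) (by omega) a
      have hne : Nonempty ((Fin (2 * n + 1) ⊕ Fin (2 * n + 1)) × Fin (2 * n + 1)) :=
        ⟨(Sum.inl ⟨0, by omega⟩, ⟨0, by omega⟩)⟩
      have h2 := Pool.Agent.Y332.PM.univ_rank
        (V := (Fin (2 * n + 1) ⊕ Fin (2 * n + 1)) × Fin (2 * n + 1)) (κ := Fin n)
        (by
          rw [Fintype.card_prod, Fintype.card_fin, Fintype.card_fin]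
          nlinarith) a ha
      rw [rank_eq] at h1 h2
      rw [Fintype.card_prod, Fintype.card_sum, Fintype.card_prod, Fintype.card_fin,
        Fintype.card_fin] at h2
      rw [Fintype.card_fin] at h1
      nlinarith

end Pool.Agent.Results.MP_471f68_co.RankFormula
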